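import Pool.Agent.Helper23.GK.StB
import Pool.Agent.Helper48.BK.M_Sg1

/-! # Project GK, module AP2: approximation of `ζ(s)` by a partial sum -/

set_option autoImplicit false

namespace Pool.Agent.Helper81.GK

open Finset MeasureTheory Complex Filter Topology
open Pool.Agent.Helper23.GK
open Pool.Agent.Helper48.BK (zh_Sg1 zh_Sg1_diff zh_Sg1_ne)

/-- truncated fractional part -/
noncomputable def Q_AP2 (N : ℕ) (t : ℝ) : ℂ :=
  if (N : ℝ) < t then ((Int.fract t : ℝ) : ℂ) else 0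

theorem norm_Q_AP2 (N : ℕ) (t : ℝ) : ‖Q_AP2 N t‖ ≤ 1 := by
  unfold Q_AP2
  split_ifs with h
  · rw [norm_real, Real.norm_of_nonneg (Int.fract_nonneg t)]
    exact (Int.fract_lt_one t).le
  · rw [norm_zero]; exact zero_le_one

theorem meas_Q_AP2 (N : ℕ) : Measurable (Q_AP2 N) :=
  Measurable.ite measurableSet_Ioi (Complex.measurable_ofReal.comp measurable_fract)
    measurable_const

theorem zero_Q_AP2 {N : ℕ} {t : ℝ} (ht : t ≤ N) : Q_AP2 N t = 0 := if_neg (not_lt.2 ht)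

theorem diff_Q_AP2 {N : ℕ} (hN : 1 ≤ N) {z : ℂ} (hz : z.re < 0) :
    DifferentiableAt ℂ (mellin (Q_AP2 N)) z := by
  refine mellin_differentiableAt_of_isBigO_rpow (a := 0) (b := z.re - 1) ?_ ?_ hz ?_ (by linarith)
  · refine LocallyIntegrable.locallyIntegrableOn ?_ _
    refine (locallyIntegrable_const (1 : ℝ)).mono (meas_Q_AP2 N).aestronglyMeasurable ?_
    refine Eventually.of_forall fun t => ?_
    rw [norm_one]
    exact norm_Q_AP2 N t
  · refine Asymptotics.IsBigO.of_bound 1 (Eventually.of_forall fun t => ?_)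
    rw [neg_zero, Real.rpow_zero, norm_one, mul_one]
    exact norm_Q_AP2 N t
  · have h : Q_AP2 N =ᶠ[𝓝[>] 0] fun _ => (0 : ℂ) := by
      filter_upwards [mem_nhdsWithin_of_mem_nhds (Iio_mem_nhds (zero_lt_one' ℝ))] with t ht
      refine zero_Q_AP2 ?_
      have h1 : (1 : ℝ) ≤ N := by exact_mod_cast hN
      exact (le_of_lt ht).trans h1
    exact h.trans_isBigO (Asymptotics.isBigO_zero _ _)

theorem mellin_Q_AP2 {N : ℕ} (hN : 1 ≤ N) (s : ℂ) :
    mellin (Q_AP2 N) (-s) =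
      ∫ t in Set.Ioi (N : ℝ), ((Int.fract t : ℝ) : ℂ) * (t : ℂ) ^ (-(s + 1)) := by
  have hN1 : (1 : ℝ) ≤ N := by exact_mod_cast hN
  unfold mellin
  have h := setIntegral_eq_of_subset_of_forall_sdiff_eq_zero (μ := volume)
    (f := fun t : ℝ => (t : ℂ) ^ (-s - 1) • Q_AP2 N t)
    (s := Set.Ioi (N : ℝ)) (t := Set.Ioi 0) measurableSet_Ioi
    (fun t ht => lt_trans (lt_of_lt_of_le zero_lt_one hN1) (Set.mem_Ioi.1 ht))
    (fun t ht => by
      have h1 : t ≤ N := not_lt.1 fun h => ht.2 (Set.mem_Ioi.2 h)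
      rw [zero_Q_AP2 h1, smul_zero])
  rw [h]
  refine setIntegral_congr_fun measurableSet_Ioi fun t ht => ?_
  have ht' : (N : ℝ) < t := ht
  simp only [smul_eq_mul]
  rw [mul_comm, neg_add', Q_AP2, if_pos ht']

theorem bound_Q_AP2 {N : ℕ} (hN : 1 ≤ N) {s : ℂ} (hs : 0 < s.re) :
    ‖mellin (Q_AP2 N) (-s)‖ ≤ (N : ℝ) ^ (-s.re) / s.re := by
  have hN0 : (0 : ℝ) < N := by exact_mod_cast hN
  rw [mellin_Q_AP2 hN]
  have hi := integrableOn_Ioi_rpow_of_lt (a := -(s.re + 1)) (by linarith) hN0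
  have h := norm_integral_le_of_norm_le (μ := volume.restrict (Set.Ioi (N : ℝ)))
    (f := fun t : ℝ => ((Int.fract t : ℝ) : ℂ) * (t : ℂ) ^ (-(s + 1)))
    (g := fun t : ℝ => t ^ (-(s.re + 1))) hi
    (by
      refine (ae_restrict_iff' measurableSet_Ioi).2 (Eventually.of_forall fun t ht => ?_)
      have ht0 : (0 : ℝ) < t := lt_trans hN0 ht
      rw [norm_mul, norm_cpow_eq_rpow_re_of_pos ht0]
      have e : (-(s + 1)).re = -(s.re + 1) := by simp
      rw [e, norm_real, Real.norm_of_nonneg (Int.fract_nonneg t)]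
      exact mul_le_of_le_one_left (Real.rpow_nonneg ht0.le _) (Int.fract_lt_one t).le)
  refine h.trans (le_of_eq ?_)
  rw [integral_Ioi_rpow_of_lt (by linarith) hN0]
  have e : -(s.re + 1) + 1 = -s.re := by ring
  rw [e, neg_div_neg_eq]

/-- the formula for `Re s > 1` -/
theorem eq1_AP2 {N : ℕ} (hN : 1 ≤ N) {s : ℂ} (hs : 1 < s.re) :
    (s - 1) * riemannZeta s = (s - 1) * ∑ n ∈ Finset.Icc 1 N, (n : ℂ) ^ (-s) +
      (N : ℂ) ^ (1 - s) - s * (s - 1) * mellin (Q_AP2 N) (-s) := by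
  have hN0 : (0 : ℝ) < N := by exact_mod_cast hN
  have hN1 : (1 : ℝ) ≤ N := by exact_mod_cast hN
  have hNC : (N : ℂ) ≠ 0 := by
    have : N ≠ 0 := by omega
    exact_mod_cast this
  have hs0 : s ≠ 0 := by
    rintro rfl
    simp at hs
    linarith
  have hs1 : s - 1 ≠ 0 := by
    intro h
    have : s = 1 := sub_eq_zero.1 h
    rw [this, one_re] at hs
    linarith
  -- the finite part
  obtain ⟨g, hg⟩ : ∃ g : ℕ → ℂ, g = fun n => if n ≤ N then 1 else 0 := ⟨_, rfl⟩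
  obtain ⟨f, hf⟩ : ∃ f : ℕ → ℂ, f = fun n => if n ≤ N then 0 else 1 := ⟨_, rfl⟩
  have hgz : ∀ n, n ∉ Finset.Icc 1 N → LSeries.term g s n = 0 := by
    intro n hn
    rw [LSeries.term_def]
    split_ifs with h0
    · rfl
    · have h1 : ¬ n ≤ N := fun h => hn (Finset.mem_Icc.2 ⟨by omega, h⟩)
      rw [hg]
      simp only
      rw [if_neg h1, zero_div]
  have hgs : LSeriesSummable g s := summable_of_ne_finset_zero (s := Finset.Icc 1 N) hgz
  have hgL : LSeries g s = ∑ n ∈ Finset.Icc 1 N, (n : ℂ) ^ (-s) := by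
    unfold LSeries
    rw [tsum_eq_sum hgz]
    refine Finset.sum_congr rfl fun n hn => ?_
    rw [Finset.mem_Icc] at hn
    rw [LSeries.term_def, if_neg (by omega), hg]
    simp only
    rw [if_pos hn.2, one_div, cpow_neg]
  have h1s : LSeriesSummable 1 s := LSeriesSummable_one_iff.2 hs
  have hfe : f = 1 - g := by
    rw [hf, hg]
    ext n
    simp only [Pi.sub_apply, Pi.one_apply]
    split_ifs <;> simp
  have hfs : LSeriesSummable f s := by rw [hfe]; exact h1s.sub hgs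
  have hfL : LSeries f s = riemannZeta s - ∑ n ∈ Finset.Icc 1 N, (n : ℂ) ^ (-s) := by
    rw [hfe, LSeries_sub h1s hgs, LSeries_one_eq_riemannZeta hs, hgL]
  -- the partial sums
  have hps : ∀ m : ℕ, ∑ k ∈ Finset.Icc 1 m, f k = ((m - N : ℕ) : ℂ) := by
    intro m
    induction m with
    | zero => simp
    | succ m ih =>
      rw [Finset.sum_Icc_succ_top (by omega), ih, hf]
      simp only
      split_ifs with h
      · have : m + 1 - N = 0 := by omega
        have h2 : m - N = 0 := by omega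
        rw [this, h2]; simp
      · have : m + 1 - N = (m - N) + 1 := by omega
        rw [this]; push_cast; ring
  have hint := LSeries_eq_mul_integral f (r := 1) zero_le_one hs hfs (by
    refine Asymptotics.IsBigO.of_bound 1 (Eventually.of_forall fun n => ?_)
    rw [hps, Real.rpow_one, one_mul, norm_natCast, Real.norm_of_nonneg (Nat.cast_nonneg n)]
    exact_mod_cast Nat.sub_le n N)
  have hI : ∫ t in Set.Ioi (1 : ℝ), (∑ k ∈ Finset.Icc 1 ⌊t⌋₊, f k) * (t : ℂ) ^ (-(s + 1)) =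
      ∫ t in Set.Ioi (N : ℝ), ((t : ℂ) ^ (-s) - (N : ℂ) * (t : ℂ) ^ (-(s + 1)) -
        ((Int.fract t : ℝ) : ℂ) * (t : ℂ) ^ (-(s + 1))) := by
    have h := setIntegral_eq_of_subset_of_forall_sdiff_eq_zero (μ := volume)
      (f := fun t : ℝ => (∑ k ∈ Finset.Icc 1 ⌊t⌋₊, f k) * (t : ℂ) ^ (-(s + 1)))
      (s := Set.Ioi (N : ℝ)) (t := Set.Ioi 1) measurableSet_Ioi
      (fun t ht => lt_of_le_of_lt hN1 (Set.mem_Ioi.1 ht))
      (fun t ht => by
        have h1 : t ≤ N := not_lt.1 fun h => ht.2 (Set.mem_Ioi.2 h)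
        have h2 : ⌊t⌋₊ ≤ N := by
          have := Nat.floor_le_floor h1
          rwa [Nat.floor_natCast] at this
        rw [hps, Nat.sub_eq_zero_of_le h2]
        simp)
    rw [h]
    refine setIntegral_congr_fun measurableSet_Ioi fun t ht => ?_
    have ht' : (N : ℝ) < t := ht
    have ht0 : 0 < t := lt_trans hN0 ht'
    have htC : (t : ℂ) ≠ 0 := by exact_mod_cast ht0.ne'
    have h2 : N ≤ ⌊t⌋₊ := Nat.le_floor ht'.le
    rw [hps]
    have h3 : ((⌊t⌋₊ - N : ℕ) : ℂ) = (t : ℂ) - ((Int.fract t : ℝ) : ℂ) - N := by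
      rw [Nat.cast_sub h2]
      congr 1
      have h4 : ((⌊t⌋₊ : ℕ) : ℝ) = t - Int.fract t := by
        rw [Int.fract, sub_sub_cancel, natCast_floor_eq_intCast_floor ht0.le]
      have h5 : ((⌊t⌋₊ : ℕ) : ℂ) = (((⌊t⌋₊ : ℕ) : ℝ) : ℂ) := by push_cast; rfl
      rw [h5, h4]
      push_cast
      rfl
    rw [h3]
    have h6 : (t : ℂ) ^ (-s) = (t : ℂ) * (t : ℂ) ^ (-(s + 1)) := by
      have : -s = 1 + -(s + 1) := by ring
      conv_lhs => rw [this]
      rw [cpow_add _ _ htC, cpow_one]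
    rw [h6]
    ring
  have i1 : IntegrableOn (fun t : ℝ => (t : ℂ) ^ (-s)) (Set.Ioi (N : ℝ)) :=
    integrableOn_Ioi_cpow_of_lt (by simp; linarith) hN0
  have i2 : IntegrableOn (fun t : ℝ => (t : ℂ) ^ (-(s + 1))) (Set.Ioi (N : ℝ)) :=
    integrableOn_Ioi_cpow_of_lt (by simp; linarith) hN0
  have i3 : IntegrableOn (fun t : ℝ => ((Int.fract t : ℝ) : ℂ) * (t : ℂ) ^ (-(s + 1)))
      (Set.Ioi (N : ℝ)) := by
    refine Integrable.bdd_mul (c := 1) i2
      (Complex.measurable_ofReal.comp measurable_fract).aestronglyMeasurable ?_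
    refine Eventually.of_forall fun t => ?_
    rw [norm_real, Real.norm_of_nonneg (Int.fract_nonneg t)]
    exact (Int.fract_lt_one t).le
  have hI2 : ∫ t in Set.Ioi (N : ℝ), ((t : ℂ) ^ (-s) - (N : ℂ) * (t : ℂ) ^ (-(s + 1)) -
        ((Int.fract t : ℝ) : ℂ) * (t : ℂ) ^ (-(s + 1))) =
      (N : ℂ) ^ (1 - s) / (s - 1) - (N : ℂ) ^ (1 - s) / s - mellin (Q_AP2 N) (-s) := by
    have i12 : IntegrableOn (fun t : ℝ => (t : ℂ) ^ (-s) - (N : ℂ) * (t : ℂ) ^ (-(s + 1)))
      (Set.Ioi (N : ℝ)) := i1.sub (i2.const_mul _)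
    rw [integral_sub i12 i3, integral_sub i1 (i2.const_mul _),
      integral_const_mul, integral_Ioi_cpow_of_lt (by simp; linarith) hN0,
      integral_Ioi_cpow_of_lt (by simp; linarith) hN0, ← mellin_Q_AP2 hN]
    have e1 : -s + 1 = 1 - s := by ring
    have e2 : -(s + 1) + 1 = -s := by ring
    have e3 : (N : ℂ) ^ (1 - s) = (N : ℂ) * (N : ℂ) ^ (-s) := by
      rw [sub_eq_add_neg, cpow_add _ _ hNC, cpow_one]
    rw [e1, e2]
    push_cast
    rw [e3]
    have e4 : (1 : ℂ) - s ≠ 0 := by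
      intro h
      apply hs1
      linear_combination -h
    congr 2
    · field_simp
      ring
    · field_simp
  rw [hI, hI2, hfL] at hint
  have hz : riemannZeta s = ∑ n ∈ Finset.Icc 1 N, (n : ℂ) ^ (-s) +
      s * ((N : ℂ) ^ (1 - s) / (s - 1) - (N : ℂ) ^ (1 - s) / s - mellin (Q_AP2 N) (-s)) := by
    rw [← hint]; ring
  rw [hz]
  field_simp
  ring

/-- the formula for `Re s > 0` -/
theorem eq2_AP2 {N : ℕ} (hN : 1 ≤ N) {s : ℂ} (hs : 0 < s.re) :
    zh_Sg1 s = (s - 1) * ∑ n ∈ Finset.Icc 1 N, (n : ℂ) ^ (-s) +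
      (N : ℂ) ^ (1 - s) - s * (s - 1) * mellin (Q_AP2 N) (-s) := by
  have hopen : IsOpen {z : ℂ | 0 < z.re} := isOpen_lt continuous_const continuous_re
  have hopen1 : IsOpen {z : ℂ | 1 < z.re} := isOpen_lt continuous_const continuous_re
  have hNC : (N : ℂ) ≠ 0 := by
    have : N ≠ 0 := by omega
    exact_mod_cast this
  have h1 : AnalyticOnNhd ℂ zh_Sg1 {z : ℂ | 0 < z.re} :=
    zh_Sg1_diff.differentiableOn.analyticOnNhd hopen
  have h2 : AnalyticOnNhd ℂ (fun z => (z - 1) * ∑ n ∈ Finset.Icc 1 N, (n : ℂ) ^ (-z) +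
      (N : ℂ) ^ (1 - z) - z * (z - 1) * mellin (Q_AP2 N) (-z)) {z : ℂ | 0 < z.re} := by
    refine DifferentiableOn.analyticOnNhd (fun z hz => ?_) hopen
    have h3 : DifferentiableAt ℂ (mellin (Q_AP2 N)) (-z) := diff_Q_AP2 hN (by
      have : 0 < z.re := hz
      simp [this])
    have h4 : DifferentiableAt ℂ (mellin (Q_AP2 N) ∘ fun z : ℂ => -z) z :=
      DifferentiableAt.comp z h3 differentiableAt_id.neg
    have h5 : DifferentiableAt ℂ (fun z : ℂ => ∑ n ∈ Finset.Icc 1 N, (n : ℂ) ^ (-z)) z := by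
      refine DifferentiableAt.fun_sum fun n hn => ?_
      rw [Finset.mem_Icc] at hn
      have hn0 : (n : ℂ) ≠ 0 := by
        have : n ≠ 0 := by omega
        exact_mod_cast this
      exact differentiableAt_id.neg.const_cpow (Or.inl hn0)
    have h6 : DifferentiableAt ℂ (fun z : ℂ => (N : ℂ) ^ (1 - z)) z :=
      ((differentiableAt_const _).sub differentiableAt_id).const_cpow (Or.inl hNC)
    have h7 : DifferentiableAt ℂ (fun z : ℂ => z - 1) z :=
      differentiableAt_id.sub (differentiableAt_const _)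
    exact (((h7.mul h5).add h6).sub ((differentiableAt_id.mul h7).mul h4)).differentiableWithinAt
  have hpre : IsPreconnected {z : ℂ | 0 < z.re} := (convex_halfSpace_re_gt 0).isPreconnected
  refine h1.eqOn_of_preconnected_of_eventuallyEq h2 hpre (z₀ := 2) (by simp) ?_ hs
  filter_upwards [hopen1.mem_nhds (by simp : (2 : ℂ) ∈ {z : ℂ | 1 < z.re})] with z hz
  have hz1 : 1 < z.re := hz
  have hz2 : z ≠ 1 := by
    rintro rfl
    simp at hz1
  rw [zh_Sg1_ne hz2, eq1_AP2 hN hz1]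

/-- Module AP2. -/
theorem hAP2 : StAp2 := by
  intro s N hs1 hs hN
  have hs0 : 0 < s.re := by linarith
  have h1 : s - 1 ≠ 0 := sub_ne_zero.2 hs1
  have h2 := eq2_AP2 hN hs0
  rw [zh_Sg1_ne hs1] at h2
  have h3 : riemannZeta s - ∑ n ∈ Finset.Icc 1 N, (n : ℂ) ^ (-s) - (N : ℂ) ^ (1 - s) / (s - 1) =
      -(s * mellin (Q_AP2 N) (-s)) := by
    have h4 : riemannZeta s = ((s - 1) * ∑ n ∈ Finset.Icc 1 N, (n : ℂ) ^ (-s) +
      (N : ℂ) ^ (1 - s) - s * (s - 1) * mellin (Q_AP2 N) (-s)) / (s - 1) := by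
      rw [← h2]
      field_simp
    rw [h4]
    field_simp
    ring
  rw [h3, norm_neg, norm_mul]
  have h5 := bound_Q_AP2 hN hs0
  have h6 : 0 ≤ (N : ℝ) ^ (-s.re) := Real.rpow_nonneg (Nat.cast_nonneg N) _
  have h7 : (N : ℝ) ^ (-s.re) / s.re ≤ 2 * (N : ℝ) ^ (-s.re) := by
    rw [div_le_iff₀ hs0]
    nlinarith
  calc ‖s‖ * ‖mellin (Q_AP2 N) (-s)‖ ≤ ‖s‖ * (2 * (N : ℝ) ^ (-s.re)) :=
        mul_le_mul_of_nonneg_left (h5.trans h7) (norm_nonneg _)
    _ = 2 * ‖s‖ * (N : ℝ) ^ (-s.re) := by ring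

end Pool.Agent.Helper81.GK
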